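import Pool.Agent.Helper86.SC.St
import Pool.Agent.Helper67.Cour.Lift
import Pool.Agent.Helper67.Cour.Energy

/-!
# Project SC (MP_cd9119_pr), module ESR: entropy, displacement, Folner sets
-/

set_option autoImplicit false

namespace Pool.Agent.Helper26.SC

open Filter Topology Pool.Agent.Helper86.SC Pool.Agent.Helper86.ML Pool.Agent.Helper67.Cour
  Pool.Agent.Helper88.AN

private theorem pr_ESR {G : Type} [Group G] {μ : G → ℝ} (h : Courteous μ) : Prob μ :=
  ⟨h.nonneg, h.sum_one⟩

/-! ### entropy -/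

private theorem fe_ESR (h1 : StSMO) (h2 : StEXP) (h3 : StPSI) {G : Type} [Group G] {ν : G → ℝ}
    (hν : Courteous ν) (n : ℕ) : FE (pw ν n) := by
  obtain ⟨lam, h0, hl, hs⟩ := h1 G ν hν
  exact (h2 G (pw ν n) lam (pw_prob (pr_ESR hν) n) h0 hl
    ((h3 G ν lam h0.le (by linarith) (pr_ESR hν) hs 0 n).1)).1

private theorem ret_ESR {G : Type} [Group G] {ν : G → ℝ} (hν : Prob ν)
    (hs : ∀ x, ν x⁻¹ = ν x) (n : ℕ) (hF : FE (pw ν n)) :
    Real.exp (-Ent (pw ν n)) ≤ pw ν (2 * n) 1 := by
  have hu : Prob (pw ν n) := pw_prob hν n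
  have hus : ∀ x, pw ν n x⁻¹ = pw ν n x := pw_symm hν hs n
  have e2 : pw ν (2 * n) 1 = ∑' s, pw ν n s * pw ν n s := by
    rw [two_mul, pw_add hν]
    unfold cv
    apply tsum_congr
    intro s
    rw [mul_one, hus]
  rw [e2]
  unfold FE at hF
  unfold Ent
  generalize pw ν n = u at *
  have hsum : Summable fun s => u s * u s := by
    refine Summable.of_nonneg_of_le (fun s => mul_nonneg (hu.nonneg s) (hu.nonneg s)) ?_ hu.summable
    intro s
    have := mul_le_mul_of_nonneg_left (hu.le_one s) (hu.nonneg s)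
    linarith
  obtain ⟨H, hH⟩ : ∃ H, H = ∑' x, Real.negMulLog (u x) := ⟨_, rfl⟩
  rw [← hH]
  have key : ∀ x, u x * (1 + H) - Real.negMulLog (u x) ≤ Real.exp H * (u x * u x) := by
    intro x
    rcases (hu.nonneg x).eq_or_lt with h0 | h0
    · rw [← h0]; simp
    · have ht : 0 < u x * Real.exp H := mul_pos h0 (Real.exp_pos H)
      have hl := Real.log_le_sub_one_of_pos ht
      rw [Real.log_mul h0.ne' (Real.exp_pos H).ne', Real.log_exp] at hl
      have := mul_le_mul_of_nonneg_left hl h0.le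
      unfold Real.negMulLog
      nlinarith
  have hs1 : Summable fun x => u x * (1 + H) - Real.negMulLog (u x) :=
    (hu.summable.mul_right _).sub hF
  have h3 := hs1.tsum_le_tsum key (hsum.mul_left _)
  rw [(hu.summable.mul_right _).tsum_sub hF, tsum_mul_right, tsum_mul_left, hu.tsum_eq, ← hH] at h3
  have h4 : 1 ≤ Real.exp H * ∑' s, u s * u s := by linarith
  have h5 := mul_le_mul_of_nonneg_left h4 (Real.exp_pos (-H)).le
  rwa [mul_one, ← mul_assoc, ← Real.exp_add, neg_add_cancel, Real.exp_zero, one_mul] at h5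

/-! ### displacement -/

private theorem list_ESR (α : Type) [Fintype α] (r : ℝ) (hr : 0 ≤ r)
    (h : (Fintype.card α : ℝ) * r < 1) : Summable fun l : List α => r ^ l.length := by
  rw [← (Equiv.sigmaFiberEquiv (List.length : List α → ℕ)).summable_iff]
  rw [summable_sigma_of_nonneg (fun p => by
    show 0 ≤ r ^ _
    positivity)]
  have hfin : ∀ n : ℕ, Finite {l : List α // l.length = n} := fun n =>
    inferInstanceAs (Finite (List.Vector α n))
  refine ⟨fun n => ?_, ?_⟩
  · haveI := hfin n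
    exact Summable.of_finite
  · have e : ∀ n : ℕ, ∑' y : {l : List α // l.length = n},
        ((fun l : List α => r ^ l.length) ∘ (Equiv.sigmaFiberEquiv (List.length : List α → ℕ))) ⟨n, y⟩ =
        ((Fintype.card α : ℝ) * r) ^ n := by
      intro n
      have e1 : ∀ y : {l : List α // l.length = n},
          ((fun l : List α => r ^ l.length) ∘ (Equiv.sigmaFiberEquiv (List.length : List α → ℕ)))
            ⟨n, y⟩ = r ^ n := by
        intro y
        show r ^ (y : List α).length = r ^ n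
        rw [y.2]
      simp_rw [e1]
      letI : Fintype {l : List α // l.length = n} := inferInstanceAs (Fintype (List.Vector α n))
      rw [tsum_fintype, Finset.sum_const, Finset.card_univ, nsmul_eq_mul]
      have e2 : Fintype.card {l : List α // l.length = n} = Fintype.card α ^ n := card_vector n
      rw [e2, mul_pow]
      push_cast
      rfl
    have e' : (fun n => ∑' y : {l : List α // l.length = n},
        ((fun l : List α => r ^ l.length) ∘ (Equiv.sigmaFiberEquiv (List.length : List α → ℕ))) ⟨n, y⟩) =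
        fun n => ((Fintype.card α : ℝ) * r) ^ n := funext e
    rw [e']
    exact summable_geometric_of_lt_one (by positivity) h

private theorem expsum_ESR {G : Type} [Group G] {S : Finset G}
    (hS : Subgroup.closure (S : Set G) = ⊤) :
    ∃ A : ℝ, 0 < A ∧ Summable fun x : G => Real.exp (-(A * (wlen S x : ℝ))) := by
  classical
  set Sg : Finset G := S ∪ S.image (fun x => x⁻¹) with hSg
  set A : ℝ := max (Fintype.card Sg : ℝ) 1 with hA
  have hA1 : 1 ≤ A := le_max_right _ _
  set b : ℝ := Real.log A + 1 with hb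
  have hb1 : 1 ≤ b := by
    have := Real.log_nonneg hA1
    linarith
  set r : ℝ := Real.exp (-b) with hr
  have hr0 : 0 < r := Real.exp_pos _
  have hAr : (Fintype.card Sg : ℝ) * r < 1 := by
    have h1 : (Fintype.card Sg : ℝ) * r ≤ A * r :=
      mul_le_mul_of_nonneg_right (le_max_left _ _) hr0.le
    have h2 : A * r = Real.exp (-1) := by
      rw [hr, hb]
      nth_rw 1 [← Real.exp_log (show 0 < A by linarith)]
      rw [← Real.exp_add]
      congr 1
      ring
    have h3 : Real.exp (-1) < 1 := by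
      rw [Real.exp_lt_one_iff]
      norm_num
    linarith
  have hls := list_ESR Sg r hr0.le hAr
  have hw : ∀ x : G, ∃ l : List Sg, l.length = wlen S x ∧
      (l.map (Subtype.val : Sg → G)).prod = x := by
    intro x
    obtain ⟨l, h1, h2, h3⟩ := exists_word hS x
    have h4 : ∀ a ∈ l, a ∈ Sg := by
      intro a ha
      rw [hSg, Finset.mem_union, Finset.mem_image]
      rcases h2 a ha with h | h
      · exact Or.inl h
      · exact Or.inr ⟨a⁻¹, h, inv_inv a⟩
    refine ⟨l.attach.map (fun a => ⟨a.1, h4 a.1 a.2⟩), ?_, ?_⟩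
    · rw [List.length_map, List.length_attach, h1]
    · rw [List.map_map]
      have : ((Subtype.val : Sg → G) ∘ fun a : {a // a ∈ l} => (⟨a.1, h4 a.1 a.2⟩ : Sg)) =
          (Subtype.val : {a // a ∈ l} → G) := rfl
      rw [this, List.attach_map_subtype_val, h3]
  choose w hw1 hw2 using hw
  have hinj : Function.Injective w := by
    intro x y hxy
    rw [← hw2 x, ← hw2 y, hxy]
  refine ⟨b, by linarith, ?_⟩
  have h1 := hls.comp_injective hinj
  refine h1.congr fun x => ?_
  show r ^ (w x).length = Real.exp (-(b * (wlen S x : ℝ)))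
  rw [hw1, hr, ← Real.exp_nat_mul]
  congr 1
  ring

private theorem wlen_one_ESR {G : Type} [Group G] (S : Finset G) : wlen S (1 : G) = 0 := by
  have h := wlen_le (S := S) (l := ([] : List G)) (by simp)
  simpa using h

private theorem wlist_ESR {G : Type} [Group G] {S : Finset G}
    (hS : Subgroup.closure (S : Set G) = ⊤) (K : ℕ) :
    ∀ l : List G, (∀ a ∈ l, wlen S a ≤ K) → wlen S l.prod ≤ K * l.length
  | [], _ => by simp [wlen_one_ESR]
  | a :: l, h => by
    have ih := wlist_ESR hS K l (fun b hb => h b (List.mem_cons_of_mem _ hb))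
    have ha := h a (List.mem_cons_self)
    rw [List.prod_cons, List.length_cons]
    calc wlen S (a * l.prod) ≤ wlen S a + wlen S l.prod := wlen_mul_le hS a l.prod
      _ ≤ K + K * l.length := add_le_add ha ih
      _ = K * (l.length + 1) := by ring

private theorem cmp_ESR {G : Type} [Group G] {S S₁ : Finset G}
    (hS : Subgroup.closure (S : Set G) = ⊤) (hS₁ : Subgroup.closure (S₁ : Set G) = ⊤) :
    ∃ K : ℕ, ∀ x : G, wlen S x ≤ K * wlen S₁ x := by
  refine ⟨∑ s ∈ S₁, wlen S s, fun x => ?_⟩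
  obtain ⟨l, h1, h2, h3⟩ := exists_word hS₁ x
  rw [← h1, ← h3]
  apply wlist_ESR hS
  intro a ha
  rcases h2 a ha with h | h
  · exact Finset.single_le_sum (f := fun s => wlen S s) (fun _ _ => Nat.zero_le _) h
  · rw [← wlen_inv hS a]
    exact Finset.single_le_sum (f := fun s => wlen S s) (fun _ _ => Nat.zero_le _) h

private theorem mom_ESR {G : Type} [Group G] {S : Finset G}
    (hS : Subgroup.closure (S : Set G) = ⊤) {ν : G → ℝ} (hν : Prob ν)
    (h : Summable fun x => ν x * (wlen S x : ℝ)) :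
    ∀ n : ℕ, Summable fun x => pw ν n x * (wlen S x : ℝ)
  | 0 => by
    refine summable_of_ne_finset_zero (s := {1}) ?_
    intro x hx
    rw [Finset.mem_singleton] at hx
    simp [pw_zero, dl, hx]
  | n + 1 => by
    have ih := mom_ESR hS hν h n
    have hP : Prob (pw ν n) := pw_prob hν n
    have hb : Summable fun x => cv (fun s => ν s * (wlen S s : ℝ)) (pw ν n) x +
        cv ν (fun y => pw ν n y * (wlen S y : ℝ)) x :=
      (summable_cv h hP.summable).add (summable_cv hν.summable ih)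
    refine Summable.of_nonneg_of_le ?_ ?_ hb
    · intro x
      rw [pw_succ]
      exact mul_nonneg (cv_nonneg hν.nonneg hP.nonneg x) (Nat.cast_nonneg _)
    · intro x
      rw [pw_succ]
      have s0 := summable_cv_left hν.summable hP.summable x
      have s1 := summable_cv_left h hP.summable x
      have s2 := summable_cv_left hν.summable ih x
      show cv ν (pw ν n) x * (wlen S x : ℝ) ≤ (∑' s, ν s * (wlen S s : ℝ) * pw ν n (s⁻¹ * x)) +
        ∑' s, ν s * (pw ν n (s⁻¹ * x) * (wlen S (s⁻¹ * x) : ℝ))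
      unfold cv
      rw [← tsum_mul_right, ← s1.tsum_add s2]
      refine (s0.mul_right _).tsum_le_tsum ?_ (s1.add s2)
      intro s
      have hw : (wlen S x : ℝ) ≤ (wlen S s : ℝ) + (wlen S (s⁻¹ * x) : ℝ) := by
        have := wlen_mul_le hS s (s⁻¹ * x)
        rw [mul_inv_cancel_left] at this
        exact_mod_cast this
      have hnn : 0 ≤ ν s * pw ν n (s⁻¹ * x) := mul_nonneg (hν.nonneg s) (hP.nonneg _)
      have := mul_le_mul_of_nonneg_left hw hnn
      linarith

private theorem mom1_ESR {G : Type} [Group G] {S : Finset G}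
    (hS : Subgroup.closure (S : Set G) = ⊤) {ν : G → ℝ} (hν : Courteous ν) :
    Summable fun x => ν x * (wlen S x : ℝ) := by
  obtain ⟨S₁, hS₁, ζ, hζ, hsum⟩ := hν.smooth
  obtain ⟨K, hK⟩ := cmp_ESR hS hS₁
  refine Summable.of_nonneg_of_le (fun x => mul_nonneg (hν.nonneg x) (Nat.cast_nonneg _)) ?_
    (hsum.mul_left ((K : ℝ) / ζ))
  intro x
  have h1 : (wlen S x : ℝ) ≤ K * (wlen S₁ x : ℝ) := by exact_mod_cast hK x
  have h2 : ζ * (wlen S₁ x : ℝ) ≤ Real.exp (ζ * (wlen S₁ x : ℝ)) := by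
    have := Real.add_one_le_exp (ζ * (wlen S₁ x : ℝ))
    linarith
  have h3 : (wlen S₁ x : ℝ) ≤ Real.exp (ζ * (wlen S₁ x : ℝ)) / ζ := by
    rw [le_div_iff₀ hζ]
    linarith
  calc ν x * (wlen S x : ℝ) ≤ ν x * (K * (Real.exp (ζ * (wlen S₁ x : ℝ)) / ζ)) := by
        apply mul_le_mul_of_nonneg_left _ (hν.nonneg x)
        exact h1.trans (mul_le_mul_of_nonneg_left h3 (Nat.cast_nonneg K))
    _ = K / ζ * (ν x * Real.exp (ζ * (wlen S₁ x : ℝ))) := by ring

private theorem ent_ESR {G : Type} [Group G] {S : Finset G} {A : ℝ}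
    (hA : Summable fun x : G => Real.exp (-(A * (wlen S x : ℝ)))) {u : G → ℝ} (hu : Prob u)
    (hm : Summable fun x => u x * (wlen S x : ℝ)) :
    Ent u ≤ A * (∑' x, u x * (wlen S x : ℝ)) +
      Real.log (∑' x : G, Real.exp (-(A * (wlen S x : ℝ)))) := by
  have hZ1 : 0 < ∑' x : G, Real.exp (-(A * (wlen S x : ℝ))) :=
    hA.tsum_pos (fun x => (Real.exp_pos _).le) 1 (Real.exp_pos _)
  generalize hZ : (∑' x : G, Real.exp (-(A * (wlen S x : ℝ)))) = Z at *
  have key : ∀ x, Real.negMulLog (u x) ≤ A * (u x * (wlen S x : ℝ)) + Real.log Z * u x +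
      (Real.exp (-(A * (wlen S x : ℝ))) / Z - u x) := by
    intro x
    rcases (hu.nonneg x).eq_or_lt with h0 | h0
    · rw [← h0]
      simp only [Real.negMulLog_zero, zero_mul, mul_zero, add_zero, sub_zero, zero_add]
      positivity
    · have hq : 0 < Real.exp (-(A * (wlen S x : ℝ))) / Z := div_pos (Real.exp_pos _) hZ1
      have h1 := Real.log_le_sub_one_of_pos (div_pos hq h0)
      rw [Real.log_div hq.ne' h0.ne', Real.log_div (Real.exp_pos _).ne' hZ1.ne',
        Real.log_exp] at h1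
      have h2 := mul_le_mul_of_nonneg_left h1 h0.le
      have h3 : u x * (Real.exp (-(A * (wlen S x : ℝ))) / Z / u x - 1) =
          Real.exp (-(A * (wlen S x : ℝ))) / Z - u x := by
        field_simp
      rw [h3] at h2
      unfold Real.negMulLog
      linarith
  have hs1 : Summable fun x => A * (u x * (wlen S x : ℝ)) + Real.log Z * u x +
      (Real.exp (-(A * (wlen S x : ℝ))) / Z - u x) :=
    ((hm.mul_left A).add (hu.summable.mul_left _)).add ((hA.div_const Z).sub hu.summable)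
  have hs0 : Summable fun x => Real.negMulLog (u x) :=
    Summable.of_nonneg_of_le (fun x => hu.negMulLog_nonneg x) key hs1
  unfold Ent
  refine (hs0.tsum_le_tsum key hs1).trans (le_of_eq ?_)
  rw [((hm.mul_left A).add (hu.summable.mul_left _)).tsum_add ((hA.div_const Z).sub hu.summable),
    (hm.mul_left A).tsum_add (hu.summable.mul_left _), (hA.div_const Z).tsum_sub hu.summable,
    tsum_mul_left, tsum_mul_left, tsum_div_const, hu.tsum_eq, hZ, div_self hZ1.ne']
  ring

/-! ### Folner sets -/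

open Classical in
private noncomputable def ch_ESR {G : Type} (F : Finset G) (x : G) : ℝ := if x ∈ F then 1 else 0

private theorem ch1_ESR {G : Type} {F : Finset G} {x : G} (h : x ∈ F) : ch_ESR F x = 1 := by
  unfold ch_ESR; rw [if_pos h]

private theorem ch0_ESR {G : Type} {F : Finset G} {x : G} (h : x ∉ F) : ch_ESR F x = 0 := by
  unfold ch_ESR; rw [if_neg h]

private theorem fol_ESR {G : Type} [Group G] (F : Finset G) (s : G) (n : ℕ)
    (h : ∀ B : Finset G, (∀ x ∈ B, x ∈ F ∧ x * s ∉ F) → (n : ℝ) * B.card ≤ F.card) :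
    (n : ℝ) * ∑' x, (ch_ESR F (x * s) - ch_ESR F x) ^ 2 ≤ 2 * F.card := by
  classical
  have hsf : Summable (ch_ESR F) :=
    summable_of_ne_finset_zero (s := F) (fun x hx => ch0_ESR hx)
  have hsfs : Summable (fun x => ch_ESR F (x * s)) := 
    hsf.comp_injective (mul_left_injective s)
  have e1 : ∑' x, ch_ESR F (x * s) = ∑' x, ch_ESR F x := (Equiv.mulRight s).tsum_eq (ch_ESR F)
  have hg : ∀ x ∉ F, ch_ESR F x * (1 - ch_ESR F (x * s)) = 0 := fun x hx => by
    rw [ch0_ESR hx, zero_mul]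
  have hsg : Summable (fun x => ch_ESR F x * (1 - ch_ESR F (x * s))) :=
    summable_of_ne_finset_zero (s := F) hg
  have e2 : ∑' x, ch_ESR F x * (1 - ch_ESR F (x * s)) =
      ((F.filter (fun x => x * s ∉ F)).card : ℝ) := by
    rw [tsum_eq_sum (s := F) hg, Finset.card_filter]
    push_cast
    apply Finset.sum_congr rfl
    intro x hx
    rw [ch1_ESR hx, one_mul]
    by_cases hx2 : x * s ∈ F
    · rw [ch1_ESR hx2, if_neg (not_not.2 hx2), sub_self]
    · rw [ch0_ESR hx2, if_pos hx2, sub_zero]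
  have e3 : ∀ x, (ch_ESR F (x * s) - ch_ESR F x) ^ 2 =
      (ch_ESR F (x * s) - ch_ESR F x) + 2 * (ch_ESR F x * (1 - ch_ESR F (x * s))) := by
    intro x
    by_cases h1 : x ∈ F <;> by_cases h2 : x * s ∈ F
    · rw [ch1_ESR h1, ch1_ESR h2]; norm_num
    · rw [ch1_ESR h1, ch0_ESR h2]; norm_num
    · rw [ch0_ESR h1, ch1_ESR h2]; norm_num
    · rw [ch0_ESR h1, ch0_ESR h2]; norm_num
  have e4 : ∑' x, (ch_ESR F (x * s) - ch_ESR F x) ^ 2 =
      2 * ((F.filter (fun x => x * s ∉ F)).card : ℝ) := by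
    rw [tsum_congr e3, (hsfs.sub hsf).tsum_add (hsg.mul_left 2), hsfs.tsum_sub hsf, e1, sub_self,
      zero_add, tsum_mul_left, e2]
  rw [e4]
  have := h (F.filter (fun x => x * s ∉ F)) (fun x hx => Finset.mem_filter.1 hx)
  linarith

private theorem crit_ESR {G : Type} [Group G] {S : Finset G} (h : ExpFol S) :
    CritN S (⊤ : Subgroup G) := by
  classical
  obtain ⟨C, hC⟩ := h
  intro ε hε
  obtain ⟨C', hC'⟩ : ∃ C', C' = max C 1 := ⟨_, rfl⟩
  have hC1 : 1 ≤ C' := by rw [hC']; exact le_max_right _ _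
  have hC0 : C ≤ C' := by rw [hC']; exact le_max_left _ _
  refine ⟨(C' / ε + 1) * (2 * S.card), fun n₀ => ?_⟩
  obtain ⟨n, hn, F, hF, hcard, hB⟩ := hC (⌈ε * n₀⌉₊ + 1)
  have hn1 : (1 : ℝ) ≤ n := by
    have : 1 ≤ n := le_trans (Nat.le_add_left 1 _) hn
    exact_mod_cast this
  have hn2 : ε * n₀ ≤ n := by
    have h1 : ε * n₀ ≤ (⌈ε * n₀⌉₊ : ℝ) := Nat.le_ceil _
    have h2 : ((⌈ε * n₀⌉₊ + 1 : ℕ) : ℝ) ≤ n := by exact_mod_cast hn
    push_cast at h2
    linarith
  obtain ⟨n', hn'⟩ : ∃ n' : ℕ, n' = ⌈C' * n / ε⌉₊ := ⟨_, rfl⟩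
  have hle : C' * n / ε ≤ n' := by rw [hn']; exact Nat.le_ceil _
  have hlt : (n' : ℝ) ≤ (C' / ε + 1) * n := by
    have h1 : (n' : ℝ) < C' * n / ε + 1 := by
      rw [hn']
      exact Nat.ceil_lt_add_one (by positivity)
    have h2 : (C' / ε + 1) * n = C' * n / ε + n := by ring
    linarith
  have hge : n₀ ≤ n' := by
    have h1 : (n₀ : ℝ) ≤ C' * n / ε := by
      rw [le_div_iff₀ hε]
      nlinarith
    exact_mod_cast h1.trans hle
  refine ⟨n', hge, ch_ESR F, ?_, ?_, ?_, ?_⟩
  · refine F.finite_toSet.subset ?_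
    intro x hx
    by_contra hx2
    exact hx (ch0_ESR hx2)
  · obtain ⟨x, hx⟩ := hF
    intro h0
    have h1 := congrFun h0 x
    rw [ch1_ESR hx] at h1
    simp at h1
  · have h2 : ∑' x, ch_ESR F x ^ 2 = (F.card : ℝ) := by
      rw [tsum_eq_sum (s := F) (fun x hx => by rw [ch0_ESR hx]; norm_num)]
      rw [Finset.sum_congr rfl (fun x hx => by rw [ch1_ESR hx, one_pow])]
      simp
    rw [h2]
    have h3 : 0 ≤ Pool.Agent.Helper86.SC.en S (ch_ESR F) :=
      Finset.sum_nonneg fun s _ => tsum_nonneg fun x => sq_nonneg _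
    have h4 : (n : ℝ) * Pool.Agent.Helper86.SC.en S (ch_ESR F) ≤ S.card * (2 * F.card) := by
      unfold Pool.Agent.Helper86.SC.en
      rw [Finset.mul_sum]
      calc ∑ s ∈ S, (n : ℝ) * ∑' x, (ch_ESR F (x * s) - ch_ESR F x) ^ 2 ≤
          ∑ _s ∈ S, 2 * (F.card : ℝ) := Finset.sum_le_sum fun s hs => fol_ESR F s n (hB s hs)
        _ = S.card * (2 * F.card) := by rw [Finset.sum_const, nsmul_eq_mul]
    have h5 : 0 ≤ C' / ε + 1 := by positivity
    calc (n' : ℝ) * Pool.Agent.Helper86.SC.en S (ch_ESR F) ≤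
        ((C' / ε + 1) * n) * Pool.Agent.Helper86.SC.en S (ch_ESR F) :=
          mul_le_mul_of_nonneg_right hlt h3
      _ = (C' / ε + 1) * (n * Pool.Agent.Helper86.SC.en S (ch_ESR F)) := by ring
      _ ≤ (C' / ε + 1) * (S.card * (2 * F.card)) := mul_le_mul_of_nonneg_left h4 h5
      _ = (C' / ε + 1) * (2 * S.card) * F.card := by ring
  · intro x y T hT
    have h1 : T ⊆ F := by
      intro z hz
      by_contra hz2
      exact (hT z hz).1 (ch0_ESR hz2)
    have h2 : (T.card : ℝ) ≤ F.card := by exact_mod_cast Finset.card_le_card h1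
    refine h2.trans (hcard.trans ?_)
    apply Real.exp_le_exp.2
    have h3 : C * n ≤ C' * n := mul_le_mul_of_nonneg_right hC0 (by linarith)
    rw [div_le_iff₀ hε] at hle
    linarith

/-! ### the module -/

theorem hESR (h1 : StSMO) (h2 : StEXP) (h3 : StPSI) (h4 : StFEC) : StESR := by
  have _ := h4
  refine ⟨?_, ?_, ?_⟩
  · intro G _ ν hν hE
    obtain ⟨C, hC⟩ := hE
    refine ⟨C, fun n₀ => ?_⟩
    obtain ⟨n, hn, hEn⟩ := hC n₀
    refine ⟨n, hn, ?_⟩
    have := ret_ESR (pr_ESR hν) hν.symm n (fe_ESR h1 h2 h3 hν n)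
    exact (Real.exp_le_exp.2 (neg_le_neg hEn)).trans this
  · intro G _ S ν hν hS hD
    obtain ⟨A, hA0, hA⟩ := expsum_ESR hS
    obtain ⟨C, hC⟩ := hD
    refine ⟨A * C + Real.log (∑' x : G, Real.exp (-(A * (wlen S x : ℝ)))), fun n₀ => ?_⟩
    obtain ⟨n, hn, hEn⟩ := hC (max n₀ 1)
    refine ⟨n, (le_max_left _ _).trans hn, ?_⟩
    have hn1 : (1 : ℝ) ≤ Real.sqrt n := by
      have h5 : 1 ≤ n := (le_max_right _ _).trans hn
      have h6 : (1 : ℝ) ≤ n := by exact_mod_cast h5
      calc (1 : ℝ) = Real.sqrt 1 := Real.sqrt_one.symm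
        _ ≤ Real.sqrt n := Real.sqrt_le_sqrt h6
    have hZ1 : 1 ≤ ∑' x : G, Real.exp (-(A * (wlen S x : ℝ))) := by
      have h7 := hA.le_tsum (1 : G) (fun x _ => (Real.exp_pos _).le)
      rwa [wlen_one_ESR, Nat.cast_zero, mul_zero, neg_zero, Real.exp_zero] at h7
    have hlog := Real.log_nonneg hZ1
    have h8 := ent_ESR hA (pw_prob (pr_ESR hν) n) (mom_ESR hS (pr_ESR hν) (mom1_ESR hS hν) n)
    have h9 := mul_le_mul_of_nonneg_left hEn hA0.le
    have h10 := mul_le_mul_of_nonneg_left hn1 hlog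
    rw [add_mul]
    linarith
  · intro G _ S hF
    exact crit_ESR hF

end Pool.Agent.Helper26.SC
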